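import Pool.Agent.Helper10.AB.GoalsF4

/-! Project AB, module FM, packet FJD: iterated difference quotients. -/

open MeasureTheory Set Filter Topology
open scoped ContDiff

noncomputable section

namespace Pool.Agent.Helper61.AB

open Pool.Agent.Helper24.AB Pool.Agent.Helper10.AB

/-- the one dimensional difference quotient -/
def dq1 (h : ℝ) (g : ℝ → ℂ) : ℝ → ℂ := fun t => (g (t + h) - g t) / h

theorem Dh_iter (h σ : ℝ) (k : ℕ) : ∀ (F : ℂ → ℂ) (t : ℝ),
    (Dh h)^[k] F ⟨σ, t⟩ = (dq1 h)^[k] (fun t => F ⟨σ, t⟩) t := by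
  induction k with
  | zero => intro F t; rfl
  | succ k ih =>
    intro F t
    rw [Function.iterate_succ_apply, Function.iterate_succ_apply, ih]
    have h1 : (fun t : ℝ => Dh h F ⟨σ, t⟩) = dq1 h (fun t => F ⟨σ, t⟩) := by
      funext t
      have h2 : (⟨σ, t⟩ : ℂ) + h * Complex.I = ⟨σ, t + h⟩ := by
        apply Complex.ext <;> simp
      unfold Dh dq1
      rw [h2]
    rw [h1]

theorem WJ_const {J : Fin 3 → ℤ} (h0 : J 0 = 0) (h1 : J 1 = 0) (t : ℝ) :
    WJ J t = 2 + |(J 2 : ℝ)| := by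
  unfold WJ Wf uf vf alp alp'
  rw [h0, h1]
  simp

theorem WJ_pos (J : Fin 3 → ℤ) (t : ℝ) : 2 ≤ WJ J t := by
  unfold WJ Wf
  have h1 := abs_nonneg (uf (alp J) t)
  have h2 := abs_nonneg (vf (alp' J) t)
  have h3 := abs_nonneg (J 2 : ℝ)
  linarith

theorem WJ_slow (hW : IsWt (fun J : JJ => WJ J.1)) (J : Fin 3 → ℤ) (t s : ℝ) :
    WJ J t ≤ Real.exp |s| * WJ J (t + s) := by
  by_cases h : J 0 ≠ 0 ∨ J 1 ≠ 0
  · have h1 := hW.slow ⟨J, h⟩ (t + s) (-s)
    rw [add_neg_cancel_right, abs_neg] at h1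
    exact h1
  · push Not at h
    rw [WJ_const h.1 h.2, WJ_const h.1 h.2]
    have h1 : 1 ≤ Real.exp |s| := Real.one_le_exp (abs_nonneg s)
    have h2 : 0 ≤ 2 + |(J 2 : ℝ)| := by positivity
    nlinarith

theorem measurableSet_strip' (a : ℝ) : MeasurableSet (strip a) := by
  have : IsOpen (strip a) := isOpen_lt (by fun_prop) continuous_const
  exact this.measurableSet

/-- functions of the imaginary part on the strip -/
theorem integrableOn_strip_im (a : ℝ) {φ : ℝ → ℝ} (hφ : Integrable φ) :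
    IntegrableOn (fun w : ℂ => φ w.im) (strip a) := by
  have h1 : IntegrableOn (fun q : ℝ × ℝ => (1 : ℝ) * φ q.2) (Set.Ioo (-a) a ×ˢ Set.univ)
      (volume : Measure (ℝ × ℝ)) := by
    unfold IntegrableOn
    rw [Measure.volume_eq_prod, ← Measure.prod_restrict, Measure.restrict_univ]
    have h2 : Integrable (fun _ : ℝ => (1 : ℝ)) (volume.restrict (Set.Ioo (-a) a)) := by
      refine integrable_const_iff.2 (Or.inr ?_)
      rw [isFiniteMeasure_restrict]
      simp
    exact h2.mul_prod hφ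
  have h3 := (Complex.volume_preserving_equiv_real_prod.integrableOn_comp_preimage
    Complex.measurableEquivRealProd.measurableEmbedding
    (f := fun q : ℝ × ℝ => (1 : ℝ) * φ q.2) (s := Set.Ioo (-a) a ×ˢ Set.univ)).2 h1
  have h4 : Complex.measurableEquivRealProd ⁻¹' (Set.Ioo (-a) a ×ˢ Set.univ) = strip a := by
    ext w
    simp [strip, abs_lt, Complex.measurableEquivRealProd]
  rw [h4] at h3
  refine h3.congr_fun (fun w _ => ?_) (measurableSet_strip' a)
  simp [Complex.measurableEquivRealProd]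

theorem fjd : S_FJA → S_WW → S_MVT → S_FJD := by
  intro hA hW hM a A δ₀ ρ₀ s p B hD f hf hG
  obtain ⟨f1, f2, f3, f4⟩ := hA a A δ₀ ρ₀ s p B hD f hf hG
  obtain ⟨w1, w2, -⟩ := hW
  constructor
  · intro k N
    obtain ⟨C, hC⟩ := f2 k N
    refine ⟨C * Real.exp k ^ N, ?_⟩
    intro J h hh0 hh1 w hw
    obtain ⟨σ, t⟩ := w
    have hσ : |σ| < a := hw
    have hWp : 0 < WJ J t ^ N := pow_pos (lt_of_lt_of_le (by norm_num) (WJ_pos J t)) N
    rw [Dh_iter]
    show ‖(dq1 h)^[k] (fun t => FJ a A s p f J ⟨σ, t⟩) t‖ * WJ J t ^ N ≤ _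
    rw [← le_div_iff₀ hWp]
    refine hM (fun t => FJ a A s p f J ⟨σ, t⟩) h k t _ hh0 (f1 J σ hσ) ?_
    intro r hr0 hr1
    rw [le_div_iff₀ hWp]
    have h1 := hC J σ (t + r) hσ
    have h2 := WJ_slow w1 J t r
    have h3 : Real.exp |r| ≤ Real.exp k := by
      apply Real.exp_le_exp.2
      rw [abs_of_nonneg hr0]
      refine hr1.trans ?_
      have : (0 : ℝ) ≤ k := Nat.cast_nonneg k
      nlinarith
    have h4 : 0 < WJ J (t + r) := lt_of_lt_of_le (by norm_num) (WJ_pos J (t + r))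
    have h5 : WJ J t ^ N ≤ (Real.exp k * WJ J (t + r)) ^ N := by
      refine pow_le_pow_left₀ (by linarith [WJ_pos J t]) (h2.trans ?_) N
      gcongr
    rw [mul_pow] at h5
    calc ‖iteratedDeriv k (fun t => FJ a A s p f J ⟨σ, t⟩) (t + r)‖ * WJ J t ^ N
        ≤ ‖iteratedDeriv k (fun t => FJ a A s p f J ⟨σ, t⟩) (t + r)‖ *
          (Real.exp k ^ N * WJ J (t + r) ^ N) := by gcongr
      _ = (‖iteratedDeriv k (fun t => FJ a A s p f J ⟨σ, t⟩) (t + r)‖ * WJ J (t + r) ^ N) *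
          Real.exp k ^ N := by ring
      _ ≤ C * Real.exp k ^ N := by gcongr
  · intro J
    obtain ⟨C, hC⟩ := f2 0 1
    obtain ⟨C', hC'⟩ := w2
    rw [memLp_two_iff_integrable_sq_norm (f3 J.1)]
    have h1 := (integrableOn_strip_im a (hC' J).1).const_mul (C ^ 2)
    refine h1.mono' ((f3 J.1).norm.pow 2) ?_
    rw [ae_restrict_iff' (measurableSet_strip' a)]
    refine Filter.Eventually.of_forall fun w hw => ?_
    have h2 := hC J.1 w.re w.im hw
    rw [iteratedDeriv_zero, pow_one] at h2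
    have h3 : (⟨w.re, w.im⟩ : ℂ) = w := rfl
    have h3' : ‖FJ a A s p f J.1 w‖ * WJ J.1 w.im ≤ C := h2
    have h4 : 0 < WJ J.1 w.im := lt_of_lt_of_le (by norm_num) (WJ_pos J.1 w.im)
    rw [Real.norm_eq_abs, abs_of_nonneg (by positivity)]
    rw [← div_eq_mul_inv, le_div_iff₀ (by positivity), ← mul_pow]
    exact pow_le_pow_left₀ (by positivity) h3' 2

end Pool.Agent.Helper61.AB
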