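import Pool.Agent.Helper10.AB.GoalsF4

/-! Project AB, module FM, packet GBJ: from `URap` to `GBd`. -/

open MeasureTheory Set Filter Topology
open scoped ContDiff

noncomputable section

namespace Pool.Agent.Helper61.AB

open Pool.Agent.Helper24.AB Pool.Agent.Helper10.AB

/-- from the `L²` norm to the integral of the square -/
theorem sq_of_eLpNorm {μ : Measure ℂ} {f : ℂ → ℂ} (hf : AEStronglyMeasurable f μ) (C : NNReal)
    (h : eLpNorm f 2 μ ≤ C) :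
    Integrable (fun w => ‖f w‖ ^ 2) μ ∧ ∫ w, ‖f w‖ ^ 2 ∂μ ≤ (C : ℝ) ^ 2 := by
  have hm : MemLp f 2 μ := ⟨hf, lt_of_le_of_lt h ENNReal.coe_lt_top⟩
  refine ⟨(memLp_two_iff_integrable_sq_norm hf).1 hm, ?_⟩
  rw [hm.eLpNorm_eq_integral_rpow_norm (by norm_num) (by norm_num), ← ENNReal.ofReal_coe_nnreal,
    ENNReal.ofReal_le_ofReal_iff C.coe_nonneg] at h
  have h2 : ∫ w, ‖f w‖ ^ (2 : ENNReal).toReal ∂μ = ∫ w, ‖f w‖ ^ 2 ∂μ := by
    refine integral_congr_ae (Filter.Eventually.of_forall fun w => ?_)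
    simp
  rw [h2] at h
  have h3 : 0 ≤ ∫ w, ‖f w‖ ^ 2 ∂μ := integral_nonneg fun w => by positivity
  have h4 : ((∫ w, ‖f w‖ ^ 2 ∂μ) ^ ((2 : ENNReal).toReal)⁻¹) ^ 2 = ∫ w, ‖f w‖ ^ 2 ∂μ := by
    rw [← Real.rpow_natCast, ← Real.rpow_mul h3]
    norm_num
  rw [← h4]
  exact pow_le_pow_left₀ (Real.rpow_nonneg h3 _) h 2

theorem measurableSet_SB (a T : ℝ) : MeasurableSet (SB a T) := by
  have h1 : IsOpen {w : ℂ | |w.re| < a} := isOpen_lt (by fun_prop) continuous_const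
  have h2 : IsOpen {w : ℂ | |w.im| < T} := isOpen_lt (by fun_prop) continuous_const
  exact (h1.inter h2).measurableSet

theorem SB_subset (a T : ℝ) : SB a T ⊆ strip a := fun _ hw => hw.1

theorem nJ_one_le (J : Fin 3 → ℤ) : 1 ≤ nJ J := by
  unfold nJ
  have h0 := abs_nonneg (J 0 : ℝ)
  have h1 := abs_nonneg (J 1 : ℝ)
  have h2 := abs_nonneg (J 2 : ℝ)
  linarith

theorem gbj : S_WW → S_GBJ := by
  intro hW a A δ₀ ρ₀ s p B hD G hGd hG
  obtain ⟨w1, -, -, w4, -⟩ := hW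
  refine ⟨fun J hJ => hGd J hJ, ?_⟩
  intro k N T
  obtain ⟨c, hc0, hc⟩ := w4 T
  obtain ⟨hm, hb⟩ := hG k
  obtain ⟨C, hC⟩ := hb N
  refine ⟨(C : ℝ) ^ 2 / c ^ (2 * N), ?_⟩
  intro J hJ
  have hX := hm ⟨J, hJ⟩
  have hC' := hC ⟨J, hJ⟩
  set X : ℂ → ℂ := fun w => (Real.exp (-(PhiJ a A s p J w)) : ℂ) * deriv^[k] (G J) w with hXdef
  have hWc : Continuous fun w : ℂ => (WJ J w.im ^ N : ℝ) :=
    ((w1.cont ⟨J, hJ⟩).comp Complex.continuous_im).pow N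
  have hWX : AEStronglyMeasurable (fun w => (WJ J w.im ^ N : ℝ) • X w) (muS a) :=
    hWc.aestronglyMeasurable.smul hX
  obtain ⟨i1, i2⟩ := sq_of_eLpNorm hWX C hC'
  have hW1 : ∀ t, 1 ≤ WJ J t := fun t => w1.one_le ⟨J, hJ⟩ t
  have hsq : ∀ w, (Real.exp (-PhiJ a A s p J w) * ‖deriv^[k] (G J) w‖) ^ 2 = ‖X w‖ ^ 2 := by
    intro w
    rw [hXdef]
    simp only [norm_mul, Complex.norm_real, Real.norm_eq_abs, Real.abs_exp]
  have hn : ∀ w, ‖(WJ J w.im ^ N : ℝ) • X w‖ = WJ J w.im ^ N * ‖X w‖ := by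
    intro w
    rw [norm_smul, Real.norm_eq_abs, abs_of_nonneg]
    exact pow_nonneg (by linarith [hW1 w.im]) N
  have hint : Integrable (fun w => ‖X w‖ ^ 2) (muS a) := by
    refine i1.mono' (hX.norm.pow 2) (Filter.Eventually.of_forall fun w => ?_)
    rw [Real.norm_eq_abs, abs_of_nonneg (by positivity), hn w]
    have h1 : 1 ≤ WJ J w.im ^ N := one_le_pow₀ (hW1 w.im)
    refine pow_le_pow_left₀ (norm_nonneg _) ?_ 2
    nlinarith [norm_nonneg (X w)]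
  have hres : IntegrableOn (fun w => ‖X w‖ ^ 2) (SB a T) := by
    have h1 : IntegrableOn (fun w => ‖X w‖ ^ 2) (strip a) := hint
    exact h1.mono_set (SB_subset a T)
  have hres' : IntegrableOn (fun w => ‖(WJ J w.im ^ N : ℝ) • X w‖ ^ 2) (SB a T) := by
    have h1 : IntegrableOn (fun w => ‖(WJ J w.im ^ N : ℝ) • X w‖ ^ 2) (strip a) := i1
    exact h1.mono_set (SB_subset a T)
  have hnJ := nJ_one_le J
  have hcn : 0 < c * nJ J := by positivity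
  simp only [hsq]
  refine ⟨hres, ?_⟩
  have h1 : (c * nJ J) ^ (2 * N) * ∫ w in SB a T, ‖X w‖ ^ 2 ≤ (C : ℝ) ^ 2 := by
    rw [← integral_const_mul]
    refine le_trans (setIntegral_mono_on (hres.const_mul _) hres' (measurableSet_SB a T)
      fun w hw => ?_) (le_trans (setIntegral_mono_set i1
        (Filter.Eventually.of_forall fun w => by positivity)
        (Filter.Eventually.of_forall (SB_subset a T))) i2)
    have h2 := (hc J w.im hw.2.le).1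
    have h3 : (c * nJ J) ^ (2 * N) ≤ WJ J w.im ^ (2 * N) := by gcongr
    rw [hn w]
    calc (c * nJ J) ^ (2 * N) * ‖X w‖ ^ 2 ≤ WJ J w.im ^ (2 * N) * ‖X w‖ ^ 2 := by gcongr
      _ = (WJ J w.im ^ N * ‖X w‖) ^ 2 := by ring
  have h2 : 0 ≤ ∫ w in SB a T, ‖X w‖ ^ 2 := integral_nonneg fun w => by positivity
  rw [le_div_iff₀ (by positivity)]
  have h3 : nJ J ^ N ≤ nJ J ^ (2 * N) := pow_le_pow_right₀ hnJ (by omega)
  calc (∫ w in SB a T, ‖X w‖ ^ 2) * nJ J ^ N * c ^ (2 * N)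
      ≤ (∫ w in SB a T, ‖X w‖ ^ 2) * nJ J ^ (2 * N) * c ^ (2 * N) := by gcongr
    _ = (c * nJ J) ^ (2 * N) * ∫ w in SB a T, ‖X w‖ ^ 2 := by rw [mul_pow]; ring
    _ ≤ (C : ℝ) ^ 2 := h1

end Pool.Agent.Helper61.AB
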